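import Pool.Agent.H978.TS.Final

/-!
# The time scaling for uniform quadrangulations must be exactly linear

If random walks on uniform random quadrangulations with `N k` faces (or on random quadrangulations
whose laws have bounded densities with respect to the uniform laws), rescaled in space by
`a k → 0` and run at speed `t k`, converge in law in the Gromov-Hausdorff-Prokhorov-uniform topology
to Liouville Brownian motion on a Liouville quantum gravity sphere, or to any time-changed
Brownian motion on any random sphere with a measure of full support, then
`c * N k ≤ t k ≤ C * N k` for constants `c, C > 0`.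

The definitions are those of the library module `Helper363_LBM.Defs`. The upper bound holds for
arbitrary quadrangulations and is the library theorem `TimeScaleLinear`. The lower bound is proved
in the modules `Pool.Agent.H978.TS`:

* `Ins`, `Split`, `Proj`: two darts at a vertex determine a splitting of the vertex into two
  vertices which are opposite corners of a new face;
* `Energy`, `PairLe`, `SsLe`, `EBasic`: if the potential of an electrical network has much energy
  at a vertex of large degree then so it has, in the splitting of the vertex, near the new face;
* `Inj`, `MainIneq`, `Merge`, `Count`, `Num`, `Mean`: the splitting is injective, and the number of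
  quadrangulations with `N + 1` faces is at most `C` times the number of the splittings of the
  quadrangulations with `N` faces; so in the mean, for uniform quadrangulations, the energy is not
  concentrated at vertices of large degree;
* `Flow`, `Nine`: six disjoint connected sets of vertices cannot have nine large mutual
  conductances, since a planar map has no `K_{3,3}` minor; the bound does not depend on the
  maximal degree, but on the mean degree with respect to the energy;
* `Six`, `Good3`, `Tour`: with positive probability the walk passes directly between each of three
  and each of three other of six coded sets;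
* `Fat`, `Nets`, `Final`: the transfer along the convergence in law.
-/

set_option autoImplicit false

open scoped NNReal ENNReal Topology
open MeasureTheory ProbabilityTheory Filter Set

open Pool.Agent.Helper363_LBM

/-- Let `Q k` be random quadrangulations of the sphere with `N k` faces, whose laws have densities
at most `C1` with respect to the uniform laws (`C1 = 1`: uniform quadrangulations), with simple
random walks `e k` such that the law of the first dart, given the map, is bounded by `C0 / N k`.
Suppose that, with edges of length `a k → 0`, mass `b k` at every vertex and the walk run at speed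
`t k`, they converge in law in the GHPU topology to a random sphere with a time-changed Brownian
motion and a measure of full support. Then `c * N k ≤ t k` for all large `k`, for some constant
`c > 0`, and `t k ≤ C * N k` for all `k`, for some constant `C`. -/
theorem Pool.Agent.Results.MP_7a6434d8_pr.UniformTimeScale.result
    {Ωs : ℕ → Type} [∀ k, MeasurableSpace (Ωs k)] (Ps : ∀ k, Measure (Ωs k))
    [∀ k, IsProbabilityMeasure (Ps k)] (N : ℕ → ℕ) (Q : ∀ k, Ωs k → Quad (N k))
    (e : ∀ k, Ωs k → ℕ → Fin (4 * N k)) (hS : ∀ k, IsSRW (Ps k) (Q k) (e k))
    (C1 : ℝ) (hlaw : ∀ k (q : Quad (N k)),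
      (Ps k).real {ω | Q k ω = q} ≤ C1 / Nat.card (Quad (N k)))
    (C0 : ℝ) (hstart : ∀ k, StartBounded (Ps k) (Q k) (e k) C0)
    (a b t : ℕ → ℝ≥0) (ha : Tendsto a atTop (𝓝 0))
    {Ω : Type} [MeasurableSpace Ω] (P : Measure Ω) [IsProbabilityMeasure P] (Z : Ω → MMC)
    (hZ : @Measurable Ω MMC _ (borel MMC) Z) (hlim : IsBrownianSphere P Z)
    (hfull : ∀ᵐ ω ∂P, ∀ V : Set (Z ω).X, IsOpen V → V.Nonempty → (Z ω).μ V ≠ 0)
    (hconv : ConvergesInLaw Ps
      (fun k ω => walkSpace (Q k ω) (a k) (b k) (t k) (e k ω) ((hS k).path ω)) P Z) :
    ∃ c C : ℝ, 0 < c ∧ (∀ᶠ k in atTop, c * N k ≤ t k) ∧ ∀ k, (t k : ℝ) ≤ C * N k := by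
  obtain ⟨k0, hk0⟩ := hlim.good
  obtain ⟨C, hC⟩ := bound_of_good hS ha hZ hconv hk0
  obtain ⟨c, hc, h⟩ := Pool.Agent.H978.TS.lower hS (C0 := max C0 0) (C1 := max C1 0)
    (le_max_right _ _) (le_max_right _ _)
    (fun k q d => (hstart k q d).trans (mul_le_mul_of_nonneg_right
      (div_le_div_of_nonneg_right (le_max_left _ _) (Nat.cast_nonneg _)) measureReal_nonneg))
    (fun k q => (hlaw k q).trans
      (div_le_div_of_nonneg_right (le_max_left _ _) (Nat.cast_nonneg _)))
    ha hZ hlim hfull hconv
  exact ⟨c, C, hc, h, hC⟩
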